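import Mathlib
import Pool.Agent.H622.Tw7

/-!
# Leigh's chain given the descent time

`T x = (m_i x - r_i) / d` for `x ≡ i mod d` is a generalised Collatz map of coprime type. Its Leigh chain has
the states `B(0, d), …, B(d - 1, d)`, all transition probabilities are `1 / d`, and `Λ = ∏ |m_i / d| ^ (1 / d)`.
We treat all the maps whose multipliers have two absolute values `a < d < b` (for example all the `3x + c`,
`5x + c` maps, all the maps of Hasse and Möller, and the maps with multipliers of both signs), for `Λ < 1`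
and for `Λ > 1`.

The descent time of `x` (to the level `c |x|`, where `0 < c ≤ 1`) is the first `t` with `|T^t x| < c |x|`.
The set of the integers with descent time `k + 1` has a natural density; we determine it asymptotically, and
we show that the residues of the trajectories of these integers follow, as `k → ∞`, another chain: the
conditioned chain, in which the classes occur with the critical frequencies `θ / s` and `(1 - θ) / (d - s)`,
for which `∏ |m_i / d| ^ (frequency of i) = 1`, instead of Leigh's frequencies `p_i = 1 / d`.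
-/

set_option autoImplicit false

namespace Pool.Agent.Results.MP_39d40e_nt.ChainGivenDescentTime

open Finset Filter Topology

/-- a generalised Collatz map of coprime type whose multipliers have the two absolute values `a < d < b` -/
structure TwoSpeed (d a b : ℕ) (m r : ℤ → ℤ) : Prop where
  two_le : 2 ≤ d
  a_pos : 1 ≤ a
  a_lt : a < d
  lt_b : d < b
  coprime_a : Nat.Coprime a d
  coprime_b : Nat.Coprime b d
  abs_m : ∀ i : ℤ, 0 ≤ i → i < d → |m i| = a ∨ |m i| = b
  adm : ∀ i : ℤ, 0 ≤ i → i < d → (d : ℤ) ∣ m i * i - r i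
  some_a : ∃ i : ℤ, 0 ≤ i ∧ i < d ∧ |m i| = a
  some_b : ∃ i : ℤ, 0 ≤ i ∧ i < d ∧ |m i| = b

/-- the admissible levels: no growth factor after the time zero is equal to `c` -/
def Level (d a b : ℕ) (c : ℝ) : Prop := 0 < c ∧ c ≤ 1 ∧
  ∀ j o : ℕ, 1 ≤ j → o ≤ j → (b : ℝ) ^ o * (a : ℝ) ^ (j - o) ≠ c * (d : ℝ) ^ j

/-- the map `T x = (m_i x - r_i) / d` for `x ≡ i mod d` -/
def T (d : ℕ) (m r : ℤ → ℤ) (x : ℤ) : ℤ := (m (x % d) * x - r (x % d)) / d

/-- the state of Leigh's chain at the time `t`: the class modulo `d` of `T^t x` -/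
def state (d : ℕ) (m r : ℤ → ℤ) (t : ℕ) (x : ℤ) : ℤ := (T d m r)^[t] x % d

/-- the number of the visits to the class `i` before the time `k` -/
def visits (d : ℕ) (m r : ℤ → ℤ) (i : ℤ) (k : ℕ) (x : ℤ) : ℕ := ((range k).filter fun t => state d m r t x = i).card

/-- the number of the `t < k` with `|m_i| = b` for the class `i` of `T^t x` -/
def ups (d b : ℕ) (m r : ℤ → ℤ) (k : ℕ) (x : ℤ) : ℕ := ((range k).filter fun t => |m (state d m r t x)| = b).card

/-- the growth factor: the product of the `|m_i| / d` for the first `k` terms -/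
noncomputable def growth (d : ℕ) (m r : ℤ → ℤ) (k : ℕ) (x : ℤ) : ℝ :=
  ((|∏ t ∈ range k, m (state d m r t x)| : ℤ) : ℝ) / (d : ℝ) ^ k

/-- the descent time of `x` to the level `c |x|` is larger than `k` -/
def Late (d : ℕ) (m r : ℤ → ℤ) (c : ℝ) (k : ℕ) (x : ℤ) : Prop :=
  ∀ j ≤ k, c * ((|x| : ℤ) : ℝ) ≤ ((|(T d m r)^[j] x| : ℤ) : ℝ)

/-- the descent time of `x` to the level `c |x|` is `k + 1` -/
def DescentTime (d : ℕ) (m r : ℤ → ℤ) (c : ℝ) (k : ℕ) (x : ℤ) : Prop :=
  Late d m r c k x ∧ ((|(T d m r)^[k + 1] x| : ℤ) : ℝ) < c * ((|x| : ℤ) : ℝ)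

open scoped Classical in
/-- the sets of the positive and of the negative integers in `S` have the natural density `δ` -/
def HasDensity (S : Set ℤ) (δ : ℝ) : Prop := ∀ s : ℤ, (s = 1 ∨ s = -1) →
  Tendsto (fun N : ℕ => (((Icc 1 N).filter fun n : ℕ => s * (n : ℤ) ∈ S).card : ℝ) / N) atTop (𝓝 δ)

open scoped Classical in
/-- the proportion of the residues modulo `d ^ (k + 1)` with the property `Q` whose growth factors are at
least `c` up to the time `k` and smaller than `c` at the time `k + 1` -/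
noncomputable def share (d : ℕ) (m r : ℤ → ℤ) (c : ℝ) (k : ℕ) (Q : ℤ → Prop) : ℝ :=
  (((range (d ^ (k + 1))).filter fun n : ℕ => ((∀ j ≤ k, c ≤ growth d m r j n) ∧ growth d m r (k + 1) n < c) ∧
    Q n).card : ℝ) / (d : ℝ) ^ (k + 1)

open scoped Classical in
/-- the proportion of the residues modulo `d ^ k` with the property `Q` whose growth factors are at least `c`
up to the time `k` -/
noncomputable def lateShare (d : ℕ) (m r : ℤ → ℤ) (c : ℝ) (k : ℕ) (Q : ℤ → Prop) : ℝ :=
  (((range (d ^ k)).filter fun n : ℕ => (∀ j ≤ k, c ≤ growth d m r j n) ∧ Q n).card : ℝ) / (d : ℝ) ^ k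

/-- the critical frequency of the fast classes -/
noncomputable def θ (d a b : ℕ) : ℝ := Real.log ((d : ℝ) / a) / Real.log ((b : ℝ) / a)

/-- the number `s` of the fast classes -/
def fast (d b : ℕ) (m : ℤ → ℤ) : ℕ := ((range d).filter fun i : ℕ => |m i| = b).card

/-- the critical frequency of the class `i` -/
noncomputable def crit (d a b : ℕ) (m : ℤ → ℤ) (i : ℤ) : ℝ :=
  if |m i| = b then θ d a b / fast d b m else (1 - θ d a b) / ((d : ℝ) - fast d b m)

/-- the weight of the residue class of `x` modulo `d ^ j` if the classes occur independently with their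
critical frequencies -/
noncomputable def weight (d a b : ℕ) (m r : ℤ → ℤ) (j : ℕ) (x : ℤ) : ℝ :=
  ∏ t ∈ range j, crit d a b m (state d m r t x)

/-- the height: the logarithm of the growth factor, divided by `log (b / a)` -/
noncomputable def height (d a b : ℕ) (m r : ℤ → ℤ) (j : ℕ) (x : ℤ) : ℝ := ups d b m r j x - j * θ d a b

open scoped Classical in
/-- the harmonic function of the critical walk: the expected number of the times at which it is in `[-v, 0)`
(or at the time zero) before it is positive -/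
noncomputable def V (d a b : ℕ) (m r : ℤ → ℤ) (v : ℝ) : ℝ := ∑' j : ℕ, ∑ x ∈ range (d ^ j),
  if (∀ i : ℕ, 1 ≤ i → i ≤ j → height d a b m r i x < 0) ∧ -v ≤ height d a b m r j x then
    weight d a b m r j x else 0

open scoped Classical in
/-- the renewal function: the expected number of the times at which the critical walk is in `(0, w]` (or at
the time zero) before it is negative -/
noncomputable def R (d a b : ℕ) (m r : ℤ → ℤ) (w : ℝ) : ℝ := ∑' j : ℕ, ∑ x ∈ range (d ^ j),
  if (∀ i : ℕ, 1 ≤ i → i ≤ j → 0 < height d a b m r i x) ∧ height d a b m r j x ≤ w then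
    weight d a b m r j x else 0

/-- the level `c` in terms of the height -/
noncomputable def u (a b : ℕ) (c : ℝ) : ℝ := -Real.log c / Real.log ((b : ℝ) / a)

open scoped Classical in
/-- the mass of the class of `y` modulo `d ^ j` in the law of the conditioned chain -/
noncomputable def mass (d a b : ℕ) (m r : ℤ → ℤ) (c : ℝ) (j y : ℕ) : ℝ :=
  if ∀ i ≤ j, c ≤ growth d m r i y then
    weight d a b m r j y * V d a b m r (u a b c + height d a b m r j y) / V d a b m r (u a b c) else 0

/-- the base of the exponential decay -/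
noncomputable def ρ (d a b : ℕ) (m : ℤ → ℤ) : ℝ :=
  ((fast d b m : ℝ) / (d * θ d a b)) ^ θ d a b *
    (((d : ℝ) - fast d b m) / (d * (1 - θ d a b))) ^ (1 - θ d a b)

noncomputable def q (d a b : ℕ) (m : ℤ → ℤ) : ℝ :=
  ((fast d b m : ℝ) * (1 - θ d a b)) / (((d : ℝ) - fast d b m) * θ d a b)

/-- the least number of ups with which the level is kept for `k` steps -/
noncomputable def least (d a b : ℕ) (c : ℝ) (k : ℕ) : ℕ := ⌈(k : ℝ) * θ d a b - u a b c⌉₊

/-- the times `k` for which a descent at the time `k + 1` is possible -/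
def Possible (d a b : ℕ) (c : ℝ) (k : ℕ) : Prop := (least d a b c k : ℝ) < ((k : ℝ) + 1) * θ d a b - u a b c

open scoped Classical in
/-- the almost periodic factor -/
noncomputable def osc (d a b : ℕ) (m r : ℤ → ℤ) (c : ℝ) (k : ℕ) : ℝ :=
  if Possible d a b c k then
    ((d : ℝ) - fast d b m) / d * q d a b m ^ ((least d a b c k : ℝ) - k * θ d a b) *
      R d a b m r (u a b c + least d a b c k - k * θ d a b) / √(2 * Real.pi * (θ d a b * (1 - θ d a b)))
  else 0

namespace Aux

open Pool.Agent.H622 Pool.Agent.H622.Tw Pool.Agent.H622.Gs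

variable {d a b : ℕ} {m r : ℤ → ℤ}

/-- the fast classes -/
def Fa (b : ℕ) (m : ℤ → ℤ) : ℤ → Prop := fun i => |m i| = b

theorem T_eq : T d m r = Tw.T d m r := rfl

theorem state_eq (t : ℕ) (x : ℤ) : state d m r t x = Tw.J d m r t x := rfl

theorem ups_eq (k : ℕ) (x : ℤ) : ups d b m r k x = Tw.up d m r (Fa b m) k x := by
  unfold ups Tw.up Fa
  congr

theorem visits_eq (i : ℤ) (k : ℕ) (x : ℤ) : visits d m r i k x = Tw.up d m r (fun j => j = i) k x := by
  unfold visits Tw.up
  congr

theorem growth_eq (k : ℕ) (x : ℤ) : growth d m r k x = ((|Tw.P d m r k x| : ℤ) : ℝ) / (d : ℝ) ^ k := rfl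

theorem ab (h : TwoSpeed d a b m r) : (0 : ℝ) < a ∧ (a : ℝ) < d ∧ (d : ℝ) < b ∧ (2 : ℝ) ≤ d := by
  refine ⟨?_, ?_, ?_, ?_⟩
  · exact_mod_cast h.a_pos
  · exact_mod_cast h.a_lt
  · exact_mod_cast h.lt_b
  · exact_mod_cast h.two_le

theorem log_ba (h : TwoSpeed d a b m r) : 0 < Real.log ((b : ℝ) / a) := by
  obtain ⟨h1, h2, h3, -⟩ := ab h
  apply Real.log_pos
  rw [lt_div_iff₀ h1]; linarith

theorem log_da (h : TwoSpeed d a b m r) : 0 < Real.log ((d : ℝ) / a) := by
  obtain ⟨h1, h2, h3, -⟩ := ab h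
  apply Real.log_pos
  rw [lt_div_iff₀ h1]; linarith

theorem no_pow (h : TwoSpeed d a b m r) {k o : ℕ} (hk : 0 < k) (ho : o ≤ k) : d ^ k ≠ b ^ o * a ^ (k - o) := by
  intro e
  have h1 : Nat.Coprime (b ^ o * a ^ (k - o)) d :=
    Nat.Coprime.mul_left (Nat.Coprime.pow_left _ h.coprime_b) (Nat.Coprime.pow_left _ h.coprime_a)
  rw [← e] at h1
  have h2 : d ∣ d ^ k := dvd_pow_self d hk.ne'
  have h3 : d ∣ 1 := by
    have := Nat.Coprime.gcd_eq_one h1
    rw [← this]
    exact Nat.dvd_gcd h2 dvd_rfl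
  have := h.two_le
  have := Nat.le_of_dvd one_pos h3
  omega

theorem sl (h : TwoSpeed d a b m r) : Sl (θ d a b) := by
  obtain ⟨h1, h2, h3, h4⟩ := ab h
  have hd : (0 : ℝ) < d := by linarith
  have hb : (0 : ℝ) < b := by linarith
  have l1 := log_ba h
  have l2 := log_da h
  have hlt : θ d a b < 1 := by
    unfold θ
    rw [div_lt_one l1]
    apply Real.log_lt_log (by positivity)
    exact div_lt_div_of_pos_right h3 h1
  have hpos : 0 < θ d a b := div_pos l2 l1
  refine ⟨hpos, hlt, ?_⟩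
  intro k hk o ho
  have hk' : (0 : ℝ) < k := by exact_mod_cast hk
  have ho0 : (0 : ℝ) < o := by rw [← ho]; positivity
  have hok : (o : ℝ) < k := by
    rw [← ho]; nlinarith
  have ho0' : 0 < o := by exact_mod_cast ho0
  obtain ⟨n, rfl⟩ := Int.eq_ofNat_of_zero_le ho0'.le
  have hnk : n < k := by exact_mod_cast hok
  have e1 : (k : ℝ) * Real.log ((d : ℝ) / a) = n * Real.log ((b : ℝ) / a) := by
    unfold θ at ho
    rw [mul_div_assoc', div_eq_iff l1.ne'] at ho
    exact_mod_cast ho
  rw [← Real.log_pow, ← Real.log_pow] at e1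
  have e2 := Real.log_injOn_pos (Set.mem_Ioi.2 (show 0 < ((d : ℝ) / a) ^ k by positivity))
    (Set.mem_Ioi.2 (show 0 < ((b : ℝ) / a) ^ n by positivity)) e1
  apply no_pow h hk hnk.le
  have e3 : (d : ℝ) ^ k = (b : ℝ) ^ n * (a : ℝ) ^ (k - n) := by
    rw [div_pow, div_pow] at e2
    have e4 : (a : ℝ) ^ k = (a : ℝ) ^ n * (a : ℝ) ^ (k - n) := by rw [← pow_add]; congr 1; omega
    have ha1 : (a : ℝ) ^ n ≠ 0 := by positivity
    have ha2 : (a : ℝ) ^ (k - n) ≠ 0 := by positivity
    rw [e4] at e2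
    field_simp at e2
    linarith
  exact_mod_cast e3

theorem dpos (h : TwoSpeed d a b m r) : 0 < d := by have := h.two_le; omega

theorem cop (h : TwoSpeed d a b m r) : Cop d m := by
  intro j h0 h1
  rcases h.abs_m j h0 h1 with e | e
  · have h2 : IsCoprime (a : ℤ) (d : ℤ) := Nat.isCoprime_iff_coprime.2 h.coprime_a
    rw [← e] at h2
    rcases abs_choice (m j) with h3 | h3
    · rwa [h3] at h2
    · rw [h3] at h2
      exact (IsCoprime.neg_left_iff _ _).1 h2
  · have h2 : IsCoprime (b : ℤ) (d : ℤ) := Nat.isCoprime_iff_coprime.2 h.coprime_b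
    rw [← e] at h2
    rcases abs_choice (m j) with h3 | h3
    · rwa [h3] at h2
    · rw [h3] at h2
      exact (IsCoprime.neg_left_iff _ _).1 h2

theorem su_fast : su d (Fa b m) = fast d b m := by
  unfold su
  rw [su_one]
  unfold fast Fa
  congr

theorem sd_slow : sd d (Fa b m) = (d : ℝ) - fast d b m := by
  have h1 : su d (Fa b m) + sd d (Fa b m) = d := su_add_sd
  rw [su_fast] at h1
  linarith

open scoped Classical in
theorem both (h : TwoSpeed d a b m r) : Both d (Fa b m) := by
  constructor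
  · obtain ⟨i, h0, h1, h2⟩ := h.some_b
    obtain ⟨n, rfl⟩ := Int.eq_ofNat_of_zero_le h0
    unfold su
    rw [su_one]
    have : 0 < ((range d).filter fun j : ℕ => Fa b m (j : ℤ)).card :=
      card_pos.2 ⟨n, mem_filter.2 ⟨mem_range.2 (by exact_mod_cast h1), (show Fa b m (n : ℤ) from h2)⟩⟩
    exact_mod_cast this
  · obtain ⟨i, h0, h1, h2⟩ := h.some_a
    obtain ⟨n, rfl⟩ := Int.eq_ofNat_of_zero_le h0
    unfold sd
    rw [sd_one]
    have h3 : ¬ Fa b m (n : ℤ) := by
      unfold Fa
      intro h3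
      rw [h2] at h3
      have : a = b := by exact_mod_cast h3
      have := h.a_lt
      have := h.lt_b
      omega
    have : 0 < ((range d).filter fun j : ℕ => ¬ Fa b m (j : ℤ)).card :=
      card_pos.2 ⟨n, mem_filter.2 ⟨mem_range.2 (by exact_mod_cast h1), h3⟩⟩
    exact_mod_cast this

/-- the absolute value of the product -/
theorem absP (h : TwoSpeed d a b m r) (k : ℕ) (x : ℤ) :
    |Tw.P d m r k x| = (b : ℤ) ^ Tw.up d m r (Fa b m) k x * (a : ℤ) ^ (k - Tw.up d m r (Fa b m) k x) := by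
  have hd := dpos h
  have hd' : (0 : ℤ) < d := by exact_mod_cast hd
  induction k with
  | zero => simp [P_zero, up_zero]
  | succ k ih =>
    rw [P_succ, abs_mul, ih, up_succ]
    have hle := up_le (d := d) (m := m) (r := r) (U := Fa b m) k x
    by_cases hU : Fa b m (Tw.J d m r k x)
    · rw [if_pos hU, show k + 1 - (Tw.up d m r (Fa b m) k x + 1) = k - Tw.up d m r (Fa b m) k x by omega, pow_succ]
      unfold Fa at hU
      rw [hU]; ring
    · rw [if_neg hU, add_zero, show k + 1 - Tw.up d m r (Fa b m) k x = k - Tw.up d m r (Fa b m) k x + 1 by omega,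
        pow_succ]
      rcases h.abs_m (Tw.J d m r k x) (Int.emod_nonneg _ hd'.ne') (Int.emod_lt_of_pos _ hd') with e | e
      · rw [e]; ring
      · exact absurd e hU

/-- the growth factor and the height -/
theorem growth_height (h : TwoSpeed d a b m r) {c : ℝ} (hc : 0 < c) (k : ℕ) (x : ℤ) :
    c ≤ growth d m r k x ↔ -u a b c ≤ (Tw.up d m r (Fa b m) k x : ℝ) - k * θ d a b := by
  obtain ⟨h1, h2, h3, h4⟩ := ab h
  have hd : (0 : ℝ) < d := by linarith
  have hb : (0 : ℝ) < b := by linarith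
  have l1 := log_ba h
  have hle := up_le (d := d) (m := m) (r := r) (U := Fa b m) k x
  set o := Tw.up d m r (Fa b m) k x with ho
  have e1 : growth d m r k x = ((b : ℝ) ^ o * (a : ℝ) ^ (k - o)) / (d : ℝ) ^ k := by
    rw [growth_eq, absP h, ← ho]
    push_cast
    rfl
  have hg : 0 < growth d m r k x := by rw [e1]; positivity
  rw [← Real.log_le_log_iff hc hg]
  have e2 : Real.log (growth d m r k x) = Real.log ((b : ℝ) / a) * (o - k * θ d a b) := by
    rw [e1, Real.log_div (by positivity) (by positivity), Real.log_mul (by positivity) (by positivity), Real.log_pow,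
      Real.log_pow, Real.log_pow, Nat.cast_sub hle]
    have e3 : Real.log ((b : ℝ) / a) * θ d a b = Real.log ((d : ℝ) / a) := by
      unfold θ; field_simp
    have e4 : Real.log ((b : ℝ) / a) * ((o : ℝ) - k * θ d a b) =
        o * Real.log ((b : ℝ) / a) - k * (Real.log ((b : ℝ) / a) * θ d a b) := by ring
    rw [e4, e3, Real.log_div hb.ne' h1.ne', Real.log_div hd.ne' h1.ne']
    ring
  rw [e2]
  unfold u
  constructor
  · intro h5
    rw [neg_div, neg_neg, div_le_iff₀ l1]
    linarith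
  · intro h5
    rw [neg_div, neg_neg, div_le_iff₀ l1] at h5
    linarith

theorem u_nonneg (h : TwoSpeed d a b m r) {c : ℝ} (hc : 0 < c) (hc1 : c ≤ 1) : 0 ≤ u a b c := by
  unfold u
  have l1 := log_ba h
  have := Real.log_nonpos hc.le hc1
  apply div_nonneg (by linarith) l1.le

theorem surv_iff (h : TwoSpeed d a b m r) {c : ℝ} (hc : 0 < c) (k : ℕ) (x : ℤ) :
    (∀ j ≤ k, c ≤ growth d m r j x) ↔ Tw.Surv d m r (Fa b m) (θ d a b) (u a b c) k x := by
  unfold Tw.Surv
  constructor
  · intro h1 j hj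
    exact (growth_height h hc j x).1 (h1 j hj)
  · intro h1 j hj
    exact (growth_height h hc j x).2 (h1 j hj)

theorem survP_iff (h : TwoSpeed d a b m r) {c : ℝ} (k : ℕ) (x : ℤ) :
    Tw.SurvP d m r c k x ↔ ∀ j ≤ k, c ≤ growth d m r j x := by
  have hd := dpos h
  unfold Tw.SurvP
  have e : ∀ j : ℕ, c * (d : ℝ) ^ j ≤ ((|Tw.P d m r j x| : ℤ) : ℝ) ↔ c ≤ growth d m r j x := by
    intro j
    rw [growth_eq, le_div_iff₀ (by positivity)]
  constructor
  · intro h1 j hj
    exact (e j).1 (h1 j hj)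
  · intro h1 j hj
    exact (e j).2 (h1 j hj)

theorem crit_eq (i : ℤ) : crit d a b m i = Tw.crit d (Fa b m) (θ d a b) i := by
  unfold crit Tw.crit
  rw [su_fast, sd_slow]
  by_cases hi : |m i| = b
  · rw [if_pos hi, if_pos (show Fa b m i from hi)]
  · rw [if_neg hi, if_neg (show ¬ Fa b m i from hi)]

theorem weight_eq (h : TwoSpeed d a b m r) (j : ℕ) (x : ℤ) :
    weight d a b m r j x = Tw.W d m r (Tw.crit d (Fa b m) (θ d a b)) j x := by
  unfold weight Tw.W
  apply prod_congr rfl
  intro t _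
  rw [crit_eq]; rfl

theorem V_eq (h : TwoSpeed d a b m r) (v : ℝ) : V d a b m r v = Gs.Vf (1 - θ d a b) v := by
  unfold V Gs.Vf
  apply tsum_congr
  intro j
  rw [← Vt_eq (r := r) (dpos h) (cop h) (both h) v j]
  unfold Tw.Vt
  apply sum_congr rfl
  intro x _
  have e : ((∀ i : ℕ, 1 ≤ i → i ≤ j → height d a b m r i x < 0) ∧ -v ≤ height d a b m r j x) ↔
      (Tw.Cond d m r (Fa b m) (fun i o => (o : ℝ) < (i : ℝ) * θ d a b) j x ∧
        -v ≤ (Tw.up d m r (Fa b m) j x : ℝ) - j * θ d a b) := by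
    unfold height Tw.Cond
    simp only [ups_eq]
    constructor
    · rintro ⟨h1, h2⟩
      exact ⟨fun i a1 a2 => by linarith [h1 i a1 a2], h2⟩
    · rintro ⟨h1, h2⟩
      exact ⟨fun i a1 a2 => by linarith [h1 i a1 a2], h2⟩
  rw [← ind_congr e, weight_eq h]
  by_cases h1 : (∀ i : ℕ, 1 ≤ i → i ≤ j → height d a b m r i x < 0) ∧ -v ≤ height d a b m r j x
  · rw [if_pos h1, ind_pos h1, one_mul]
  · rw [if_neg h1, ind_neg h1, zero_mul]

theorem R_eq (h : TwoSpeed d a b m r) (w : ℝ) : R d a b m r w = Gs.Vf (θ d a b) w := by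
  unfold R Gs.Vf
  apply tsum_congr
  intro j
  rw [← Rt_eq (r := r) (dpos h) (cop h) (both h) (θ d a b) w j]
  unfold Tw.Rt
  apply sum_congr rfl
  intro x _
  have e : ((∀ i : ℕ, 1 ≤ i → i ≤ j → 0 < height d a b m r i x) ∧ height d a b m r j x ≤ w) ↔
      (Tw.Cond d m r (Fa b m) (fun i o => (i : ℝ) * θ d a b < (o : ℝ)) j x ∧
        (Tw.up d m r (Fa b m) j x : ℝ) - j * θ d a b ≤ w) := by
    unfold height Tw.Cond
    simp only [ups_eq]
    constructor
    · rintro ⟨h1, h2⟩
      exact ⟨fun i a1 a2 => by linarith [h1 i a1 a2], h2⟩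
    · rintro ⟨h1, h2⟩
      exact ⟨fun i a1 a2 => by linarith [h1 i a1 a2], h2⟩
  rw [← ind_congr e, weight_eq h]
  by_cases h1 : (∀ i : ℕ, 1 ≤ i → i ≤ j → 0 < height d a b m r i x) ∧ height d a b m r j x ≤ w
  · rw [if_pos h1, ind_pos h1, one_mul]
  · rw [if_neg h1, ind_neg h1, zero_mul]

theorem mass_eq (h : TwoSpeed d a b m r) {c : ℝ} (hc : 0 < c) (j y : ℕ) :
    mass d a b m r c j y = Tw.mass d m r (Fa b m) (θ d a b) (u a b c) j y := by
  unfold mass Tw.mass
  have e := surv_iff h hc j (y : ℤ)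
  by_cases h1 : ∀ i ≤ j, c ≤ growth d m r i (y : ℤ)
  · rw [if_pos h1, if_pos (e.1 h1), weight_eq h, V_eq h, V_eq h]
    unfold height
    rw [ups_eq]
    congr 3
    ring
  · rw [if_neg h1, if_neg (fun h2 => h1 (e.2 h2))]

theorem cardP_sum (M : ℕ) (Q : ℤ → Prop) : (Tw.cardP M Q : ℝ) = ∑ n ∈ range M, Tw.ind (Q (n : ℤ)) := by
  unfold Tw.cardP Tw.ind
  rw [card_filter]
  push_cast
  rfl

theorem first_iff (h : TwoSpeed d a b m r) {c : ℝ} (hc : 0 < c) (k : ℕ) (x : ℤ) :
    ((∀ j ≤ k, c ≤ growth d m r j x) ∧ growth d m r (k + 1) x < c) ↔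
    (Tw.Surv d m r (Fa b m) (θ d a b) (u a b c) k x ∧ ¬ Tw.Surv d m r (Fa b m) (θ d a b) (u a b c) (k + 1) x) := by
  rw [surv_iff h hc, Tw.Surv_succ, ← growth_height h hc (k + 1) x]
  constructor
  · rintro ⟨h1, h2⟩
    exact ⟨h1, fun h3 => absurd h3.2 (not_le.2 h2)⟩
  · rintro ⟨h1, h2⟩
    refine ⟨h1, ?_⟩
    by_contra h3
    exact h2 ⟨h1, not_lt.1 h3⟩

open scoped Classical in
theorem share_sum (h : TwoSpeed d a b m r) {c : ℝ} (hc : 0 < c) (k : ℕ) (Q : ℤ → Prop) :
    share d m r c k Q = (∑ n ∈ range (d ^ (k + 1)), Tw.ind ((Tw.Surv d m r (Fa b m) (θ d a b) (u a b c) k n ∧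
      ¬ Tw.Surv d m r (Fa b m) (θ d a b) (u a b c) (k + 1) n) ∧ Q n)) / (d : ℝ) ^ (k + 1) := by
  unfold share
  congr 1
  rw [card_filter]
  push_cast
  apply sum_congr rfl
  intro n _
  have e := first_iff h hc k (n : ℤ)
  unfold Tw.ind
  by_cases h1 : ((∀ j ≤ k, c ≤ growth d m r j n) ∧ growth d m r (k + 1) n < c) ∧ Q n
  · rw [if_pos h1, if_pos ⟨e.1 h1.1, h1.2⟩]
  · rw [if_neg h1, if_neg (fun h2 => h1 ⟨e.2 h2.1, h2.2⟩)]

theorem share_fp (h : TwoSpeed d a b m r) {c : ℝ} (hc : 0 < c) {j y : ℕ} (k : ℕ) :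
    share d m r c k (fun x => x % (d : ℤ) ^ j = y) =
      Tw.fp d m r (Fa b m) (θ d a b) (u a b c) (fun _ => 1) j y k / (d : ℝ) ^ (k + 1) := by
  rw [share_sum h hc]
  unfold Tw.fp
  congr 1
  apply sum_congr rfl
  intro n _
  rw [W_one, mul_one]
  apply ind_congr
  have e : (n : ℤ) % (d : ℤ) ^ j = y ↔ n % d ^ j = y := by
    constructor
    · intro h1; exact_mod_cast h1
    · intro h1; exact_mod_cast h1
  rw [e]
  tauto

theorem share_total (h : TwoSpeed d a b m r) {c : ℝ} (hc : 0 < c) (k : ℕ) :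
    share d m r c k (fun _ => True) =
      Tw.fp d m r (Fa b m) (θ d a b) (u a b c) (fun _ => 1) 0 0 k / (d : ℝ) ^ (k + 1) := by
  rw [← share_fp h hc k, share_sum h hc, share_sum h hc]
  congr 1
  apply sum_congr rfl
  intro n _
  apply ind_congr
  simp

open scoped Classical in
theorem late_sum (h : TwoSpeed d a b m r) {c : ℝ} (hc : 0 < c) {j y : ℕ} (k : ℕ) :
    lateShare d m r c k (fun x => x % (d : ℤ) ^ j = y) =
      Tw.late d m r (Fa b m) (θ d a b) (u a b c) j y k / (d : ℝ) ^ k := by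
  unfold lateShare Tw.late
  congr 1
  rw [card_filter]
  push_cast
  apply sum_congr rfl
  intro n _
  have e : (n : ℤ) % (d : ℤ) ^ j = y ↔ n % d ^ j = y := by
    constructor
    · intro h1; exact_mod_cast h1
    · intro h1; exact_mod_cast h1
  have e2 := surv_iff h hc k (n : ℤ)
  unfold Tw.ind
  by_cases h1 : (∀ j ≤ k, c ≤ growth d m r j n) ∧ (n : ℤ) % (d : ℤ) ^ j = y
  · rw [if_pos h1, if_pos ⟨e.1 h1.2, e2.1 h1.1⟩]
  · rw [if_neg h1, if_neg (fun h2 => h1 ⟨e2.2 h2.2, e.2 h2.1⟩)]

open scoped Classical in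
theorem late_total (h : TwoSpeed d a b m r) {c : ℝ} (hc : 0 < c) (k : ℕ) :
    lateShare d m r c k (fun _ => True) =
      Tw.late d m r (Fa b m) (θ d a b) (u a b c) 0 0 k / (d : ℝ) ^ k := by
  unfold lateShare Tw.late
  congr 1
  rw [card_filter]
  push_cast
  apply sum_congr rfl
  intro n _
  have e2 := surv_iff h hc k (n : ℤ)
  unfold Tw.ind
  by_cases h1 : ∀ j ≤ k, c ≤ growth d m r j n
  · rw [if_pos ⟨h1, trivial⟩, if_pos ⟨by rw [pow_zero, Nat.mod_one], e2.1 h1⟩]
  · rw [if_neg (fun h2 => h1 h2.1), if_neg (fun h2 => h1 (e2.2 h2.2))]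

theorem rho_eq (h : TwoSpeed d a b m r) : ρ d a b m = Real.exp (Hh d (Fa b m) (θ d a b)) / d := by
  obtain ⟨h1, h2, h3, h4⟩ := ab h
  have hd : (0 : ℝ) < d := by linarith
  have hs := sl h
  have hB := both h
  have g1 := hB.up
  have g2 := hB.dn
  have t1 := hs.pos
  have t2 : 0 < 1 - θ d a b := by linarith [hs.lt]
  unfold ρ
  rw [← sd_slow, ← su_fast]
  rw [Real.rpow_def_of_pos (by positivity), Real.rpow_def_of_pos (by positivity), ← Real.exp_add,
    eq_div_iff hd.ne']
  have e1 : ∀ X : ℝ, Real.exp X * d = Real.exp (X + Real.log d) := by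
    intro X
    rw [Real.exp_add, Real.exp_log hd]
  rw [e1]
  congr 1
  rw [Real.log_div g1.ne' (by positivity), Real.log_div g2.ne' (by positivity),
    Real.log_mul hd.ne' t1.ne', Real.log_mul hd.ne' t2.ne']
  unfold Hh
  ring

theorem q_eq : q d a b m = qq d (Fa b m) (θ d a b) := by
  unfold q qq
  rw [su_fast, sd_slow]

theorem win_iff (c : ℝ) (k : ℕ) : Possible d a b c k ↔ Tw.Win (θ d a b) (u a b c) k := by
  unfold Possible Tw.Win least Gs.m0
  push_cast
  rfl

theorem hne (h : TwoSpeed d a b m r) {c : ℝ} (hcd : ∀ j o : ℕ, 1 ≤ j → o ≤ j → (b : ℝ) ^ o * (a : ℝ) ^ (j - o) ≠ c * (d : ℝ) ^ j) :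
    ∀ j : ℕ, 1 ≤ j → ∀ x : ℤ, ((|Tw.P d m r j x| : ℤ) : ℝ) ≠ c * (d : ℝ) ^ j := by
  intro j hj x
  rw [absP h]
  push_cast
  exact hcd j _ hj (up_le _ _)

open scoped Classical in
theorem osc_eq (h : TwoSpeed d a b m r) (c : ℝ) (k : ℕ) :
    osc d a b m r c k = Tw.Zf d (Fa b m) (θ d a b) (u a b c) k / d := by
  unfold osc Tw.Zf
  by_cases hw : Possible d a b c k
  · rw [if_pos hw, Tw.ind_pos ((win_iff c k).1 hw), R_eq h, q_eq, ← sd_slow]
    unfold Gs.c0 least Gs.m0
    ring
  · rw [if_neg hw, Tw.ind_neg (fun h2 => hw ((win_iff c k).2 h2))]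
    ring

theorem q_lt_one (h : TwoSpeed d a b m r) (hL : b ^ fast d b m * a ^ (d - fast d b m) < d ^ d) :
    qq d (Fa b m) (θ d a b) < 1 := by
  obtain ⟨h1, h2, h3, h4⟩ := ab h
  have hd : (0 : ℝ) < d := by linarith
  have hb : (0 : ℝ) < b := by linarith
  have hs := sl h
  have hB := both h
  have g1 := hB.up
  have g2 := hB.dn
  have t1 := hs.pos
  have l1 := log_ba h
  have hle : fast d b m ≤ d := by
    unfold fast
    exact (card_filter_le _ _).trans (by rw [card_range])
  have e1 : (b : ℝ) ^ fast d b m * (a : ℝ) ^ (d - fast d b m) < (d : ℝ) ^ d := by exact_mod_cast hL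
  have e2 := Real.log_lt_log (by positivity) e1
  rw [Real.log_mul (by positivity) (by positivity), Real.log_pow, Real.log_pow, Real.log_pow, Nat.cast_sub hle] at e2
  have e3 : (fast d b m : ℝ) < d * θ d a b := by
    unfold θ
    rw [mul_div_assoc', lt_div_iff₀ l1, Real.log_div hb.ne' h1.ne', Real.log_div hd.ne' h1.ne']
    linarith
  have e4 : su d (Fa b m) = fast d b m := su_fast
  have e5 : su d (Fa b m) + sd d (Fa b m) = d := su_add_sd
  unfold qq
  rw [div_lt_one (by positivity)]
  rw [← e4] at e3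
  rw [← e5] at e3
  nlinarith

end Aux

open Aux Pool.Agent.H622

/-- **Theorem.** Let `T` be a generalised Collatz map of coprime type whose multipliers have two absolute
values `a < d < b`. The level `c = 1` is admissible (0). Let `c` be an admissible level.

(1) Let `Q` be a property of the residues modulo `d ^ (k + 1)`. The integers with `Q` and descent time `k + 1`
have the natural density `share c k Q`, on both sides.

(2) The sharp law: `k ^ (3/2) ρ ^ (-k) share c k - V(u) osc(k) → 0`; the times `k` which are not possible have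
`share c k = 0`, there are infinitely many possible times, and at these `osc(k)` is bounded from above
and from below by positive constants.

(3) The masses are a probability measure on the `d`-adic integers (or on the sequences of states).

(4) The limit law: the proportion of the class of `y` modulo `d ^ j` among the integers with descent time
`k + 1` tends to `mass j y`.

(5) The frequencies: the number of the visits of the class `i` before the time `k` is `(crit i + o(1)) k` for
all integers with descent time `k + 1` up to an exponentially small proportion. With these frequencies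
`∏ (|m_i| / d) ^ (crit i) = 1`.

(6) If `Λ < 1`, then the integers with descent time `> k` have the same limit law. -/
theorem result {d a b : ℕ} {m r : ℤ → ℤ} (h : TwoSpeed d a b m r) : Level d a b 1 ∧
    ∀ c : ℝ, Level d a b c →
    (∀ (k : ℕ) (Q : ℤ → Prop), (∀ x y : ℤ, Q (x + (d : ℤ) ^ (k + 1) * y) ↔ Q x) →
      HasDensity {x | DescentTime d m r c k x ∧ Q x} (share d m r c k Q)) ∧
    (Tendsto (fun k : ℕ => k * √k * (ρ d a b m)⁻¹ ^ k * share d m r c k (fun _ => True) -
        V d a b m r (u a b c) * osc d a b m r c k) atTop (𝓝 0) ∧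
      (∀ k : ℕ, ¬ Possible d a b c k → share d m r c k (fun _ => True) = 0) ∧
      (∃ᶠ k in atTop, Possible d a b c k) ∧
      (∃ C₁ C₂ : ℝ, 0 < C₁ ∧ ∀ k : ℕ, Possible d a b c k → C₁ ≤ osc d a b m r c k ∧ osc d a b m r c k ≤ C₂)) ∧
    (mass d a b m r c 0 0 = 1 ∧ (∀ j y : ℕ, 0 ≤ mass d a b m r c j y) ∧
      (∀ j y : ℕ, 0 < mass d a b m r c j y ↔ ∀ i ≤ j, c ≤ growth d m r i y) ∧
      (∀ j y : ℕ, y < d ^ j → mass d a b m r c j y = ∑ i ∈ range d, mass d a b m r c (j + 1) (y + d ^ j * i))) ∧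
    (∀ (j y : ℕ) (ε : ℝ), y < d ^ j → 0 < ε → ∃ K : ℕ, ∀ k : ℕ, K ≤ k →
      |share d m r c k (fun x => x % (d : ℤ) ^ j = y) -
        mass d a b m r c j y * share d m r c k (fun _ => True)| ≤ ε * share d m r c k (fun _ => True)) ∧
    ((∀ (i : ℕ) (ε : ℝ), i < d → 0 < ε → ∃ C γ : ℝ, 0 < γ ∧ ∀ k : ℕ,
      share d m r c k (fun x => ε * k < |(visits d m r i k x : ℝ) - crit d a b m i * k|) ≤
        C * Real.exp (-(γ * k)) * share d m r c k (fun _ => True)) ∧
      ∏ i ∈ range d, (|(m i : ℝ)| / d) ^ crit d a b m i = 1) ∧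
    (b ^ fast d b m * a ^ (d - fast d b m) < d ^ d →
      (∀ (k : ℕ) (Q : ℤ → Prop), (∀ x y : ℤ, Q (x + (d : ℤ) ^ k * y) ↔ Q x) →
        HasDensity {x | Late d m r c k x ∧ Q x} (lateShare d m r c k Q)) ∧
      (∀ (j y : ℕ) (ε : ℝ), y < d ^ j → 0 < ε → ∃ K : ℕ, ∀ k : ℕ, K ≤ k →
        |lateShare d m r c k (fun x => x % (d : ℤ) ^ j = y) -
          mass d a b m r c j y * lateShare d m r c k (fun _ => True)| ≤
            ε * lateShare d m r c k (fun _ => True))) := by
  refine ⟨⟨one_pos, le_rfl, fun j o hj ho e => ?_⟩, ?_⟩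
  · apply no_pow h (k := j) (o := o) (by omega) ho
    rw [one_mul] at e
    exact_mod_cast e.symm
  rintro c ⟨hc0, hc1, hc⟩
  have hd := dpos h
  have hdR : (0 : ℝ) < d := by exact_mod_cast hd
  have hco := cop h
  have hB := both h
  have hs := sl h
  have hu := u_nonneg h hc0 hc1
  have hne := Aux.hne h hc
  have hA : Tw.Adm d m r := h.adm
  refine ⟨?_, ⟨?_, ?_, ?_, ?_⟩, ⟨?_, ?_, ?_, ?_⟩, ?_, ⟨?_, ?_⟩, ?_⟩
  · intro k Q hQ
    have h1 := Tw.densities hd hA hc1 hne k Q hQ
    have e : ((Tw.cardP (d ^ (k + 1)) (fun x => (Tw.SurvP d m r c k x ∧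
        ((|Tw.P d m r (k + 1) x| : ℤ) : ℝ) < c * (d : ℝ) ^ (k + 1)) ∧ Q x) : ℝ) / (d ^ (k + 1) : ℕ)) =
        share d m r c k Q := by
      classical
      unfold share Tw.cardP
      push_cast
      congr 2
      apply congrArg card
      ext n
      simp only [mem_filter, survP_iff h]
      have e2 : ((|Tw.P d m r (k + 1) (n : ℤ)| : ℤ) : ℝ) < c * (d : ℝ) ^ (k + 1) ↔ growth d m r (k + 1) n < c := by
        rw [growth_eq, div_lt_iff₀ (by positivity)]
      rw [Int.cast_abs] at e2
      rw [e2]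
    rw [e] at h1
    exact h1
  · have h1 := Tw.fp_tendsto' (r := r) hd hco hB hs hu (j := 0) (y := 0) (by simp)
    rw [Tw.mass_zero hs hu] at h1
    have h2 := h1.mul_const ((d : ℝ)⁻¹)
    rw [zero_mul] at h2
    refine h2.congr fun k => ?_
    rw [osc_eq h, V_eq h, share_total h hc0, rho_eq h, inv_div, div_pow, ← Real.exp_nat_mul, Real.exp_neg, pow_succ]
    have : Real.exp (k * Tw.Hh d (Fa b m) (θ d a b)) ≠ 0 := (Real.exp_pos _).ne'
    field_simp
  · intro k hk
    rw [share_total h hc0, Tw.fp_not_win hd hco hs _ (Nat.zero_le k) (fun h2 => hk ((win_iff c k).2 h2)), zero_div]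
  · exact (Tw.Win_frequently hs hu).mono fun k hk => (win_iff c k).2 hk
  · obtain ⟨M, hM, hZ⟩ := Tw.Zf_bound hB hs hu
    obtain ⟨z, hz, hZ2⟩ := Tw.Zf_lower hB hs hu
    refine ⟨z / d, M / d, by positivity, fun k hk => ?_⟩
    rw [osc_eq h]
    exact ⟨div_le_div_of_nonneg_right (hZ2 k ((win_iff c k).1 hk)) hdR.le,
      div_le_div_of_nonneg_right ((le_abs_self _).trans (hZ k)) hdR.le⟩
  · rw [mass_eq h hc0]; exact Tw.mass_zero hs hu
  · intro j y
    rw [mass_eq h hc0]; exact Tw.mass_nonneg hB hs hu j y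
  · intro j y
    constructor
    · intro h1
      by_contra h2
      unfold mass at h1
      rw [if_neg h2] at h1
      exact lt_irrefl _ h1
    · intro h1
      have h2 := (surv_iff h hc0 j (y : ℤ)).1 h1
      rw [mass_eq h hc0]
      unfold Tw.mass
      rw [if_pos h2]
      have h3 := Tw.W_crit_pos (m := m) (r := r) hB hs j (y : ℤ)
      have h4 := Gs.Vf_ge_one hs.flip hu
      have h5 := Gs.Vf_ge_one hs.flip (w := u a b c + Tw.up d m r (Fa b m) j y - j * θ d a b) (by
        have := h2 j le_rfl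
        linarith)
      positivity
  · intro j y hy
    rw [mass_eq h hc0, Tw.mass_split hd hco hB hs hu hy]
    apply sum_congr rfl
    intro i _
    rw [mass_eq h hc0]
  · intro j y ε hy hε
    obtain ⟨K, hK⟩ := Tw.law (r := r) hd hco hB hs hu hy hε
    refine ⟨K, fun k hk => ?_⟩
    have h1 := hK k hk
    rw [share_fp h hc0, share_total h hc0, mass_eq h hc0]
    have hdk : (0 : ℝ) < (d : ℝ) ^ (k + 1) := by positivity
    rw [mul_div_assoc', mul_div_assoc', ← sub_div, abs_div, abs_of_pos hdk]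
    exact div_le_div_of_nonneg_right h1 hdk.le
  · intro i ε hi hε
    obtain ⟨C, γ, hC, hγ, hf⟩ := Tw.freq (r := r) hd hco hB hs hu hi hε
    refine ⟨C, γ, hγ, fun k => ?_⟩
    have h1 := hf k
    rw [share_sum h hc0, share_total h hc0, mul_div_assoc']
    have hdk : (0 : ℝ) < (d : ℝ) ^ (k + 1) := by positivity
    apply div_le_div_of_nonneg_right _ hdk.le
    simp only [visits_eq, crit_eq]
    exact h1
  · -- the critical relation
    have hsl := hs
    obtain ⟨h1, h2, h3, h4⟩ := ab h
    have hb : (0 : ℝ) < b := by linarith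
    have l1 := log_ba h
    have hcr := fun i : ℤ => (crit_eq (d := d) (a := a) (b := b) (m := m) i)
    have hpos : ∀ i ∈ range d, 0 < |(m (i : ℤ) : ℝ)| / d := by
      intro i hi
      rw [mem_range] at hi
      have h5 : |(m (i : ℤ) : ℝ)| = a ∨ |(m (i : ℤ) : ℝ)| = b := by
        rcases h.abs_m i (by positivity) (by exact_mod_cast hi) with e | e
        · left; rw [← Int.cast_abs, e]; push_cast; rfl
        · right; rw [← Int.cast_abs, e]; push_cast; rfl
      rcases h5 with e | e <;> rw [e] <;> positivity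
    have hlog : ∏ i ∈ range d, (|(m (i : ℤ) : ℝ)| / d) ^ crit d a b m i =
        Real.exp (∑ i ∈ range d, Real.log (|(m (i : ℤ) : ℝ)| / d) * crit d a b m i) := by
      rw [Real.exp_sum]
      apply prod_congr rfl
      intro i hi
      rw [Real.rpow_def_of_pos (hpos i hi)]
    rw [hlog]
    have e1 : ∑ i ∈ range d, Real.log (|(m (i : ℤ) : ℝ)| / d) * crit d a b m i =
        Real.log ((b : ℝ) / d) * Tw.Su d (Fa b m) (Tw.crit d (Fa b m) (θ d a b)) +
        Real.log ((a : ℝ) / d) * Tw.Sd d (Fa b m) (Tw.crit d (Fa b m) (θ d a b)) := by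
      unfold Tw.Su Tw.Sd
      rw [mul_sum, mul_sum, ← sum_add_distrib]
      apply sum_congr rfl
      intro i hi
      rw [mem_range] at hi
      rw [crit_eq]
      by_cases hU : Fa b m (i : ℤ)
      · have hU' : |m (i : ℤ)| = b := hU
        have e : |(m (i : ℤ) : ℝ)| = b := by rw [← Int.cast_abs, hU']; push_cast; rfl
        simp only [if_pos hU]
        rw [e]; ring
      · have hU' : |m (i : ℤ)| = a := by
          rcases h.abs_m i (by positivity) (by exact_mod_cast hi) with e | e
          · exact e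
          · exact absurd e hU
        have e : |(m (i : ℤ) : ℝ)| = a := by rw [← Int.cast_abs, hU']; push_cast; rfl
        simp only [if_neg hU]
        rw [e]; ring
    rw [e1, Tw.Su_crit hB, Tw.Sd_crit hB, Real.log_div hb.ne' hdR.ne', Real.log_div h1.ne' hdR.ne']
    have e2 : Real.log ((b : ℝ) / a) * θ d a b = Real.log ((d : ℝ) / a) := by
      unfold θ; field_simp
    rw [Real.log_div hb.ne' h1.ne', Real.log_div hdR.ne' h1.ne'] at e2
    have e3 : (Real.log b - Real.log d) * θ d a b + (Real.log a - Real.log d) * (1 - θ d a b) = 0 := by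
      linear_combination e2
    rw [e3, Real.exp_zero]
  · intro hL
    have hq := q_lt_one h hL
    refine ⟨?_, ?_⟩
    · intro k Q hQ
      have h1 := Tw.densities_late hd hA hc1 hne k Q hQ
      have e : ((Tw.cardP (d ^ k) (fun x => Tw.SurvP d m r c k x ∧ Q x) : ℝ) / (d ^ k : ℕ)) =
          lateShare d m r c k Q := by
        classical
        unfold lateShare Tw.cardP
        push_cast
        congr 2
        apply congrArg card
        ext n
        simp only [mem_filter, survP_iff h]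
      rw [e] at h1
      exact h1
    · intro j y ε hy hε
      obtain ⟨K, hK⟩ := Tw.law_late (r := r) hd hco hB hs hu hq hy hε
      refine ⟨K, fun k hk => ?_⟩
      have h1 := hK k hk
      rw [late_sum h hc0, late_total h hc0, mass_eq h hc0]
      have hdk : (0 : ℝ) < (d : ℝ) ^ k := by positivity
      rw [mul_div_assoc', mul_div_assoc', ← sub_div, abs_div, abs_of_pos hdk]
      exact div_le_div_of_nonneg_right h1 hdk.le

end Pool.Agent.Results.MP_39d40e_nt.ChainGivenDescentTime
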