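import Pool.Agent.H618.LP.Count
import Pool.Agent.H618.LP.Tri

/-!
# Leigh's first assertion in the rings of polynomials over the finite fields

Let `F` be a finite field with `q` elements, `|f| = q ^ deg f`, and let `d` be a polynomial of positive degree. There
are `|d|` residue classes modulo `d`. A generalised Collatz map of coprime type modulo `d` is the map
`T f = (m_c f - r_c) / d` for `f` in the class `c`, where all the `m_c` are prime to `d` and `m_c f ≡ r_c` modulo `d` for
the `f` in `c` (`GMap d`, `GMap.T`). As for the integers, Leigh's chain has then one class, the set of all residue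
classes, with the uniform distribution, and `Λ = ∏ |m_c / d| ^ (1 / |d|)`. So `Λ < 1` means that the sum of the degrees
of the `m_c` is less than `|d| deg d` (`GMap.Contracting`). Leigh's first assertion for the modulus `d` is: if `Λ < 1`,
then all trajectories are eventually periodic.

We show that it is true if and only if `|d| = 2`. For `|d| ≥ 4` it fails even for the map which is the Euclidean
division by `d` outside of the class of `0`: there are `(|d| - 1) ^ n` polynomials of degree `(n + 3) deg d` whose
trajectories grow exponentially.
-/

set_option autoImplicit false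

namespace Pool.Agent.Results.MP_39d40e_nt.PolynomialRings

open Polynomial Pool.Agent.H618.LP

/-- **Leigh's first assertion in `F[x]`.** Let `F` be a finite field and let `d` be a polynomial of positive degree.
(1) All trajectories of all generalised Collatz maps of coprime type modulo `d` with `Λ < 1` are eventually periodic if
and only if there are exactly two residue classes modulo `d`.
(2) If there are at least four residue classes, then there is such a map with `Λ < 1`, given by the quotient `f / d` of
the division with remainder if `f` is not divisible by `d`, and by `(1 + d ^ 3) (f / d)` if it is, such that for all `n` there are at least `(|d| - 1) ^ n` polynomials `f` of degree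
`(n + 3) deg d` with `|T^(n + t) f| ≥ |d| ^ t` for all `t`. -/
theorem result {F : Type*} [Field F] [Finite F] (d : F[X]) (hd : 0 < d.natDegree) :
    ((∀ M : GMap d, M.Contracting → ∀ f, M.Cycles f) ↔ Nat.card (Cls d) = 2) ∧
    (4 ≤ Nat.card (Cls d) → ∃ M : GMap d, M.Contracting ∧ (∀ c, c ≠ 0 → M.m c = 1) ∧
      (∀ f, ¬ d ∣ f → M.T f = f / d) ∧ (∀ f, d ∣ f → M.T f = (1 + d ^ 3) * (f / d)) ∧
      ∀ n, (Nat.card (Cls d) - 1) ^ n ≤ Set.ncard {f : F[X] | f.natDegree = (n + 3) * d.natDegree ∧
        ∀ t, t * d.natDegree ≤ (M.T^[n + t] f).natDegree}) := by
  have hd0 : d ≠ 0 := by rintro rfl; simp at hd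
  have hcard : 2 ≤ Nat.card (Cls d) := by
    rw [card_cls hd0]
    have h1 : 2 ≤ Nat.card F := Finite.one_lt_card (α := F)
    calc 2 = 2 ^ 1 := rfl
      _ ≤ Nat.card F ^ 1 := Nat.pow_le_pow_left h1 1
      _ ≤ Nat.card F ^ d.natDegree := Nat.pow_le_pow_right (by omega) hd
  refine ⟨⟨fun h => ?_, fun h M hM f => norm_two hd h M hM f⟩, fun h4 => ?_⟩
  · by_contra hne
    rcases Nat.lt_or_ge (Nat.card (Cls d)) 4 with h1 | h1
    · have h3 : Nat.card (Cls d) = 3 := by omega
      obtain ⟨f, hf⟩ := norm_three hd h3
      exact hf (h _ (tri_contracting hd h3) f)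
    · exact not_cycles hd (h _ (big_contracting hd h1) (d ^ 3))
  · refine ⟨big d, big_contracting hd h4, ?_, fun f hf => big_not_dvd hd0 hf, ?_, fun n => count hd n⟩
    · intro c hc
      simp only [big]
      rw [if_neg hc]
    · rintro f ⟨g, rfl⟩
      rw [big_dvd hd0, mul_div_cancel_left₀ g hd0]

end Pool.Agent.Results.MP_39d40e_nt.PolynomialRings
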