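import Mathlib
import Pool.Agent.H622.RM

set_option autoImplicit false

/-!
Trajectories in a class of Leigh's chain with `Λ_C < 1` which do not just fall into a cycle: the divergent
trajectories and the cycles. With at most `A t^(-η)` exceptions in any family of such trajectories without
common elements, they follow the product of the multipliers up to a factor between `exp (-t)` and `exp t`,
for all times. For coprime multipliers `η` is explicit and `A` is linear in the remainders.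
-/

namespace Pool.Agent.Results.MP_39d40e_nt.UniformRigidity

open Finset
open Pool.Agent.H319R2.Leigh (T P Data Class freq Lam S)

/-- `x` is periodic, or its trajectory diverges (no two of its elements are equal). -/
def PeriodicOrDivergent (d : ℕ) (m r : ℤ → ℤ) (x : ℤ) : Prop :=
  (∃ p : ℕ, 1 ≤ p ∧ (T d m r)^[p] x = x) ∨ Function.Injective (fun k => (T d m r)^[k] x)

/-- No two of the trajectories of the elements of `F` have a common element. -/
def Separate (d : ℕ) (m r : ℤ → ℤ) (F : Finset ℤ) : Prop :=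
  ∀ x ∈ F, ∀ y ∈ F, ∀ i j : ℕ, (T d m r)^[i] x = (T d m r)^[j] y → x = y

/-- The logarithm of the product of the multipliers `|m_i| / d` along the first `k` steps. -/
noncomputable def logProd (d : ℕ) (m r : ℤ → ℤ) (k : ℕ) (x : ℤ) : ℝ :=
  ∑ j ∈ range k, Real.log (|(m (((T d m r)^[j] x) % d) : ℝ)| / d)

/-- The first `k` terms of the trajectory are different, and the logarithm of `|T^k x|` differs from
`log |x|` plus the logarithm of the product of the multipliers by at least `t`. -/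
def DeviatesAt (d : ℕ) (m r : ℤ → ℤ) (t : ℝ) (x : ℤ) (k : ℕ) : Prop :=
  Set.InjOn (fun j => (T d m r)^[j] x) (Set.Iio k) ∧
    t ≤ |Real.log |(((T d m r)^[k] x : ℤ) : ℝ)| - Real.log |(x : ℝ)| - logProd d m r k x|

/-- `Z` is a cycle of `T`: the set of the elements of a periodic orbit. -/
def IsCycle (d : ℕ) (m r : ℤ → ℤ) (Z : Finset ℤ) : Prop :=
  ∃ (x : ℤ) (p : ℕ), 1 ≤ p ∧ (T d m r)^[p] x = x ∧ Z = (range p).image fun i => (T d m r)^[i] x

/-- The absolute value of the logarithm of the multiplier `∏_{x ∈ Z} |m_{x mod d}| / d` of `Z`. -/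
noncomputable def logMult (d : ℕ) (m : ℤ → ℤ) (Z : Finset ℤ) : ℝ :=
  |∑ x ∈ Z, Real.log (|(m (x % d) : ℝ)| / d)|

/-- At most `K` exceptions in the set `V`: in every finite set `F` of elements of `V` which are periodic or
have divergent trajectories, no two of them with a common element, at most `K` deviate at some time by at
least `t`; and at most `K` cycles in `V` have a multiplier whose logarithm is at least `t` in absolute
value. -/
def Few (d : ℕ) (m r : ℤ → ℤ) (V : Set ℤ) (t K : ℝ) : Prop :=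
  (∀ F : Finset ℤ, (∀ x ∈ F, x ∈ V) → (∀ x ∈ F, PeriodicOrDivergent d m r x) → Separate d m r F →
    (Set.ncard {x : ℤ | x ∈ F ∧ ∃ k : ℕ, DeviatesAt d m r t x k} : ℝ) ≤ K) ∧
  {Z : Finset ℤ | IsCycle d m r Z ∧ (∀ x ∈ Z, x ∈ V) ∧ t ≤ logMult d m Z}.Finite ∧
  (Set.ncard {Z : Finset ℤ | IsCycle d m r Z ∧ (∀ x ∈ Z, x ∈ V) ∧ t ≤ logMult d m Z} : ℝ) ≤ K

/-- The size of the remainders, `max 1 (∑ |r_i|)`. -/
def size (d : ℕ) (r : ℤ → ℤ) : ℕ := max 1 (∑ i ∈ range d, (r i).natAbs)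

open Pool.Agent.H319R2.G in
/-- the map as a structure -/
def gc (d : ℕ) (m r : ℤ → ℤ) (hd : 2 ≤ d) (hm : ∀ i : ℤ, 0 ≤ i → i < d → IsCoprime (m i) (d : ℤ))
    (hr : ∀ i : ℤ, 0 ≤ i → i < d → r i ≡ i * m i [ZMOD d]) : GC where
  d := d
  m := m
  r := r
  two_le := hd
  cop := hm
  dvd := by
    intro i h0 h1
    have h2 := (hr i h0 h1).dvd
    rwa [mul_comm i] at h2

theorem gc_R (d : ℕ) (m r : ℤ → ℤ) (hd : 2 ≤ d) (hm : ∀ i : ℤ, 0 ≤ i → i < d → IsCoprime (m i) (d : ℤ))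
    (hr : ∀ i : ℤ, 0 ≤ i → i < d → r i ≡ i * m i [ZMOD d]) :
    (gc d m r hd hm hr).R ≤ (size d r : ℝ) := by
  have h1 : (gc d m r hd hm hr).R = ((∑ i ∈ range d, (r i).natAbs : ℕ) : ℝ) := by
    unfold Pool.Agent.H319R2.G.GC.R gc
    rw [Nat.cast_sum]
    apply sum_congr rfl
    intro i _
    rw [Nat.cast_natAbs, Int.cast_abs]
  rw [h1]
  unfold size
  exact_mod_cast le_max_right _ _

theorem ncard_filter (F : Finset ℤ) (Q : ℤ → Prop) {K : ℝ}
    (h : ∀ G : Finset ℤ, G ⊆ F → (∀ x ∈ G, Q x) → (G.card : ℝ) ≤ K) :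
    (Set.ncard {x : ℤ | x ∈ F ∧ Q x} : ℝ) ≤ K := by
  classical
  have h3 : {x : ℤ | x ∈ F ∧ Q x} = ((F.filter Q : Finset ℤ) : Set ℤ) := by
    ext x
    simp
  rw [h3, Set.ncard_coe_finset]
  apply h _ (filter_subset _ _)
  intro x hx
  rw [mem_filter] at hx
  exact hx.2

/-- (1) For every generalised Collatz map as in the problem, every class `C` of Leigh's chain with `Λ_C < 1`
and some `0 < η < 1` and `A`: `Few` holds in `S_C` with at most `A t^(-η)` exceptions, for all `0 < t ≤ 1`.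
(2) Let `d ≥ 2` and `gcd(m_i, d) = 1` for all `i`. If `∏ |m_i| / d < 1`, then there are `θ ≥ 0` and
`0 < η < 1` with `∑ (|m_i| / d) ^ θ < d ^ η`. For all such `θ`, `η` there is `A` such that for all
`r_i ≡ i m_i (mod d)` and `0 < t ≤ 1` there are at most `A max (1, ∑ |r_i|) t^(-η)` exceptions in `ℤ`. -/
theorem result :
    (∀ (d : ℕ) (m r b : ℤ → ℤ) (e : ℤ → ℕ), Data d m r b e → ∀ (C : Finset (ℤ × ℕ)) (ρ : ℤ × ℕ → ℝ),
      Class d m r e C ρ → Lam d m C ρ < 1 → ∃ η A : ℝ, 0 < η ∧ η < 1 ∧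
        ∀ t : ℝ, 0 < t → t ≤ 1 → Few d m r (S d C) t (A * t ^ (-η))) ∧
    ∀ (d : ℕ) (m : ℤ → ℤ), 2 ≤ d → (∀ i : ℤ, 0 ≤ i → i < d → IsCoprime (m i) (d : ℤ)) →
      (∏ i ∈ range d, |(m i : ℝ)| / d < 1 →
        ∃ θ η : ℝ, 0 ≤ θ ∧ 0 < η ∧ η < 1 ∧ ∑ i ∈ range d, (|(m i : ℝ)| / d) ^ θ < (d : ℝ) ^ η) ∧
      ∀ θ η : ℝ, 0 ≤ θ → 0 < η → η < 1 → ∑ i ∈ range d, (|(m i : ℝ)| / d) ^ θ < (d : ℝ) ^ η →
        ∃ A : ℝ, ∀ r : ℤ → ℤ, (∀ i : ℤ, 0 ≤ i → i < d → r i ≡ i * m i [ZMOD d]) →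
          ∀ t : ℝ, 0 < t → t ≤ 1 → Few d m r Set.univ t (A * size d r * t ^ (-η)) := by
  classical
  constructor
  · intro d m r b e D C ρ hC hL
    obtain ⟨hinv, η, hη0, hη1, hsm⟩ := Pool.Agent.H319R2.Leigh.small D hC hL
    obtain ⟨A, hA, h1⟩ := Pool.Agent.H622.RM.main (Pool.Agent.H319R2.Leigh.gm D) (S d C) hinv η hη0 hη1 hsm
    refine ⟨η, A, hη0, hη1, ?_⟩
    intro t ht ht1
    refine ⟨?_, ?_⟩
    · intro F hFV hF hsep
      apply ncard_filter
      intro G hG hGd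
      exact h1 G (fun x hx => hFV x (hG hx)) (fun x hx => hF x (hG hx))
        (fun x hx y hy => hsep x (hG hx) y (hG hy)) t ht ht1 hGd
    · apply Pool.Agent.H622.RG.finite_of_card
      intro G hG
      exact Pool.Agent.H622.RM.cycles (g := Pool.Agent.H319R2.Leigh.gm D) (S0 := S d C)
        (fun F h2 h3 h4 h5 => h1 F h2 h3 h4 t ht ht1 h5) G hG
  · intro d m hd hm
    have hr0 : ∀ i : ℤ, 0 ≤ i → i < d → (fun i : ℤ => i * m i) i ≡ i * m i [ZMOD d] :=
      fun i _ _ => Int.ModEq.refl _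
    set g₀ := gc d m (fun i : ℤ => i * m i) hd hm hr0 with hg₀
    have ha : ∀ i : ℕ, g₀.a (i : ℤ) = |(m i : ℝ)| / d := fun i => rfl
    have hd0 : g₀.d = d := rfl
    constructor
    · intro hL
      have h1 : ∑ i ∈ range g₀.d, Real.log (g₀.a i) < 0 := by
        rw [← Real.log_prod (fun i hi => (g₀.a_pos' hi).ne')]
        apply Real.log_neg
        · exact Finset.prod_pos fun i hi => g₀.a_pos' hi
        · rw [hd0]
          simp only [ha]
          exact hL
      obtain ⟨θ, η, h2, h3, h4, h5⟩ := g₀.exists_exp h1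
      refine ⟨θ, η, h2, by linarith, h4, ?_⟩
      rw [hd0] at h5
      simp only [ha] at h5
      exact h5
    · intro θ η hθ hη0 hη1 hφ
      have hφ' : ∑ i ∈ range g₀.d, g₀.a i ^ θ < (g₀.d : ℝ) ^ η := by
        rw [hd0]
        simp only [ha]
        exact hφ
      obtain ⟨A, hA, h1⟩ := Pool.Agent.H622.RG.main g₀ θ η hθ hη0 hη1 hφ'
      refine ⟨A, ?_⟩
      intro r hr t ht ht1
      have h2 := h1 (gc d m r hd hm hr) rfl rfl (size d r) (le_max_left _ _) (gc_R d m r hd hm hr)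
      refine ⟨?_, ?_⟩
      · intro F _ hF hsep
        apply ncard_filter
        intro G hG hGd
        exact h2 G (fun x hx => hF x (hG hx)) (fun x hx y hy => hsep x (hG hx) y (hG hy)) t ht ht1 hGd
      · apply Pool.Agent.H622.RG.finite_of_card
        intro G hG
        exact Pool.Agent.H622.RG.cycles (g := gc d m r hd hm hr)
          (fun F h3 h4 h5 => h2 F h3 h4 t ht ht1 h5) G (fun Z hZ => ⟨(hG Z hZ).1, (hG Z hZ).2.2⟩)

end Pool.Agent.Results.MP_39d40e_nt.UniformRigidity
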